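import Pool.Agent.H664.FH.Stm2
import Pool.Agent.H664.FH.Ana

/-! Project FH (helper664): JOB DOUBL (helper183). -/

set_option autoImplicit false

namespace Pool.Agent.H183.FH

open Filter Topology Metric

/-- one variable: a bounded holomorphic function on the disc of radius two which is not small somewhere
on the unit disc is not small somewhere on the imaginary segment -/
theorem one_var (C a : ℝ) (ha : 0 < a) : ∃ a' : ℝ, 0 < a' ∧ ∀ f : ℂ → ℂ,
    DifferentiableOn ℂ f (ball 0 2) → (∀ z ∈ ball (0 : ℂ) 2, ‖f z‖ ≤ C) →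
    (∃ z : ℂ, ‖z‖ ≤ 1 ∧ a ≤ ‖f z‖) → ∃ κ : ℝ, |κ| ≤ 1 ∧ a' ≤ ‖f (Complex.I * (κ : ℂ))‖ := by
  by_contra hcon
  push Not at hcon
  have h1 : ∀ j : ℕ, ∃ f : ℂ → ℂ, DifferentiableOn ℂ f (ball 0 2) ∧
      (∀ z ∈ ball (0 : ℂ) 2, ‖f z‖ ≤ C) ∧ (∃ z : ℂ, ‖z‖ ≤ 1 ∧ a ≤ ‖f z‖) ∧
      ∀ κ : ℝ, |κ| ≤ 1 → ‖f (Complex.I * (κ : ℂ))‖ < 1 / ((j : ℝ) + 1) := by
    intro j
    exact hcon (1 / ((j : ℝ) + 1)) (by positivity)
  choose f hfd hfb hfz hfs using h1
  choose z hz1 hz2 using hfz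
  -- ultrafilter limits
  have hlim : ∀ w ∈ ball (0 : ℂ) 2, ∃ y : ℂ,
      Tendsto (fun j => f j w) (hyperfilter ℕ : Filter ℕ) (𝓝 y) := by
    intro w hw
    have hc : IsCompact (closedBall (0 : ℂ) C) := isCompact_closedBall _ _
    have := hc.ultrafilter_le_nhds ((hyperfilter ℕ).map (fun j => f j w)) (by
      rw [Ultrafilter.coe_map, le_principal_iff, mem_map]
      exact univ_mem' fun j => by
        show f j w ∈ closedBall (0 : ℂ) C
        rw [mem_closedBall_zero_iff]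
        exact hfb j w hw)
    obtain ⟨y, -, hy⟩ := this
    exact ⟨y, hy⟩
  choose! g hg using hlim
  have hmon := Pool.Agent.H664.FH.mon (U := (hyperfilter ℕ : Filter ℕ)) (f := f) (g := g) (c := 0)
    (r := 2) (C := C) (Eventually.of_forall fun j => ⟨hfd j, hfb j⟩) hg
  -- the limit vanishes on the imaginary segment
  have hg0 : ∀ κ : ℝ, |κ| ≤ 1 → g (Complex.I * (κ : ℂ)) = 0 := by
    intro κ hκ
    have hmem : Complex.I * (κ : ℂ) ∈ ball (0 : ℂ) 2 := by
      rw [mem_ball_zero_iff, norm_mul, Complex.norm_I, one_mul, Complex.norm_real,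
        Real.norm_eq_abs]
      linarith
    have h2 : Tendsto (fun j => f j (Complex.I * (κ : ℂ))) (hyperfilter ℕ : Filter ℕ) (𝓝 0) := by
      rw [tendsto_zero_iff_norm_tendsto_zero]
      have h3 : Tendsto (fun j : ℕ => 1 / ((j : ℝ) + 1)) (hyperfilter ℕ : Filter ℕ) (𝓝 0) :=
        tendsto_one_div_add_atTop_nhds_zero_nat.mono_left (by
          rw [← Nat.cofinite_eq_atTop]
          exact hyperfilter_le_cofinite)
      exact squeeze_zero (fun j => norm_nonneg _) (fun j => (hfs j κ hκ).le) h3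
    exact tendsto_nhds_unique (hg _ hmem) h2
  -- identity theorem
  have hgan : AnalyticOnNhd ℂ g (ball 0 2) := hmon.2.analyticOnNhd isOpen_ball
  have hfr : ∃ᶠ w in 𝓝[≠] (0 : ℂ), g w = 0 := by
    have ht : Tendsto (fun j : ℕ => Complex.I * ((1 / ((j : ℝ) + 1) : ℝ) : ℂ)) atTop
        (𝓝[≠] (0 : ℂ)) := by
      rw [tendsto_nhdsWithin_iff]
      refine ⟨?_, ?_⟩
      · have h3 : Tendsto (fun j : ℕ => ((1 / ((j : ℝ) + 1) : ℝ) : ℂ)) atTop (𝓝 ((0 : ℝ) : ℂ)) :=
          (Complex.continuous_ofReal.tendsto 0).comp tendsto_one_div_add_atTop_nhds_zero_nat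
        have h4 := h3.const_mul Complex.I
        simpa using h4
      · refine Eventually.of_forall fun j => ?_
        have : ((j : ℝ) + 1) ≠ 0 := by positivity
        simp only [Set.mem_compl_iff, Set.mem_singleton_iff]
        refine mul_ne_zero Complex.I_ne_zero ?_
        rw [Ne, Complex.ofReal_eq_zero]
        positivity
    refine ht.frequently (Frequently.of_forall fun j => ?_)
    apply hg0
    rw [abs_of_pos (by positivity), div_le_one (by positivity)]
    have : (0 : ℝ) ≤ j := Nat.cast_nonneg j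
    linarith
  have hzero : Set.EqOn g 0 (ball 0 2) :=
    hgan.eqOn_zero_of_preconnected_of_frequently_eq_zero (convex_ball _ _).isPreconnected
      (mem_ball_self two_pos) hfr
  -- contradiction at the points z j
  have hcz : IsCompact (closedBall (0 : ℂ) 1) := isCompact_closedBall _ _
  obtain ⟨zs, hzs, hlz⟩ := hcz.ultrafilter_le_nhds ((hyperfilter ℕ).map z) (by
      rw [Ultrafilter.coe_map, le_principal_iff, mem_map]
      exact univ_mem' fun j => by
        show z j ∈ closedBall (0 : ℂ) 1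
        rw [mem_closedBall_zero_iff]
        exact hz1 j)
  have hzlim : Tendsto z (hyperfilter ℕ : Filter ℕ) (𝓝 zs) := hlz
  rw [mem_closedBall_zero_iff] at hzs
  have hzs2 : zs ∈ ball (0 : ℂ) 2 := by
    rw [mem_ball_zero_iff]
    linarith
  have hlu := hmon.1
  rw [Metric.tendstoLocallyUniformlyOn_iff] at hlu
  obtain ⟨t, ht, hev⟩ := hlu a ha zs hzs2
  rw [nhdsWithin_eq_nhds.2 (isOpen_ball.mem_nhds hzs2)] at ht
  have hev2 : ∀ᶠ j in (hyperfilter ℕ : Filter ℕ), z j ∈ t := hzlim.eventually ht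
  have hev3 : ∀ᶠ j in (hyperfilter ℕ : Filter ℕ), False := by
    filter_upwards [hev, hev2] with j hj1 hj2
    have h5 := hj1 (z j) hj2
    have h6 : z j ∈ ball (0 : ℂ) 2 := by
      rw [mem_ball_zero_iff]
      linarith [hz1 j]
    have h7 : g (z j) = 0 := hzero h6
    rw [h7, dist_zero_left] at h5
    linarith [hz2 j]
  obtain ⟨j, hj⟩ := hev3.exists
  exact hj

/-- several variables -/
theorem multi_var (n : ℕ) (C a : ℝ) (ha : 0 < a) (s : Finset (Fin n)) : ∃ a' : ℝ, 0 < a' ∧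
    ∀ g : (Fin n → ℂ) → ℂ, DifferentiableOn ℂ g (ball 0 2) →
    (∀ v ∈ ball (0 : Fin n → ℂ) 2, ‖g v‖ ≤ C) → (∃ v : Fin n → ℂ, ‖v‖ ≤ 1 ∧ a ≤ ‖g v‖) →
    ∃ w : Fin n → ℂ, ‖w‖ ≤ 1 ∧ (∀ l ∈ s, (w l).re = 0) ∧ a' ≤ ‖g w‖ := by
  induction s using Finset.induction_on with
  | empty =>
    refine ⟨a, ha, fun g _ _ ⟨v, hv, hv'⟩ => ⟨v, hv, ?_, hv'⟩⟩
    intro l hl
    simp at hl
  | insert l s hl ih =>
    obtain ⟨a1, ha1, h1⟩ := ih
    obtain ⟨a2, ha2, h2⟩ := one_var C a1 ha1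
    refine ⟨a2, ha2, fun g hg hb hv => ?_⟩
    obtain ⟨w, hw, hws, hwa⟩ := h1 g hg hb hv
    have hmem : ∀ z ∈ ball (0 : ℂ) 2, Function.update w l z ∈ ball (0 : Fin n → ℂ) 2 := by
      intro z hz
      rw [mem_ball_zero_iff] at hz ⊢
      rw [pi_norm_lt_iff two_pos]
      intro i
      by_cases hi : i = l
      · subst hi
        rw [Function.update_self]
        exact hz
      · rw [Function.update_of_ne hi]
        have := norm_le_pi_norm w i
        linarith
    have hd : DifferentiableOn ℂ (fun z => g (Function.update w l z)) (ball 0 2) := by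
      refine hg.comp (t := ball 0 2) ?_ hmem
      refine DifferentiableOn.congr (f := fun z => Function.update w l z) ?_ (fun _ _ => rfl)
      apply differentiableOn_pi.2
      intro i
      by_cases hi : i = l
      · subst hi
        simp only [Function.update_self]
        exact differentiableOn_id
      · simp only [Function.update_of_ne hi]
        exact differentiableOn_const _
    obtain ⟨κ, hκ, hκa⟩ := h2 (fun z => g (Function.update w l z)) hd
      (fun z hz => hb _ (hmem z hz)) ⟨w l, (norm_le_pi_norm w l).trans hw, by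
        simpa [Function.update_eq_self] using hwa⟩
    refine ⟨Function.update w l (Complex.I * (κ : ℂ)), ?_, ?_, hκa⟩
    · rw [pi_norm_le_iff_of_nonneg zero_le_one]
      intro i
      by_cases hi : i = l
      · subst hi
        rw [Function.update_self, norm_mul, Complex.norm_I, one_mul, Complex.norm_real,
          Real.norm_eq_abs]
        exact hκ
      · rw [Function.update_of_ne hi]
        exact (norm_le_pi_norm w i).trans hw
    · intro i hi
      by_cases hil : i = l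
      · subst hil
        rw [Function.update_self]
        simp
      · rw [Function.update_of_ne hil]
        exact hws i (by
          rw [Finset.mem_insert] at hi
          exact hi.resolve_left hil)

/-- the claim on normal families: a ball around a purely imaginary point -/
theorem claim (n : ℕ) (C : ℝ) : ∃ m η : ℝ, 0 < m ∧ 0 < η ∧ η ≤ 1 ∧
    ∀ g : (Fin n → ℂ) → ℂ, DifferentiableOn ℂ g (ball 0 2) →
    (∀ v ∈ ball (0 : Fin n → ℂ) 2, ‖g v‖ ≤ C) → (∃ v : Fin n → ℂ, ‖v‖ ≤ 1 ∧ 1 / 2 ≤ ‖g v‖) →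
    ∃ κ : Fin n → ℝ, ‖(fun l => Complex.I * (κ l : ℂ) : Fin n → ℂ)‖ ≤ 1 ∧
      ∀ v ∈ ball (fun l => Complex.I * (κ l : ℂ) : Fin n → ℂ) η, m ≤ ‖g v‖ := by
  obtain ⟨a, ha, h⟩ := multi_var n C (1 / 2) (by norm_num) Finset.univ
  set L : ℝ := 2 * |C| + 1 with hL
  have hL0 : 0 < L := by positivity
  refine ⟨a / 2, min 1 (a / (2 * L)), by positivity, lt_min one_pos (by positivity),
    min_le_left _ _, fun g hg hb hv => ?_⟩
  obtain ⟨w, hw, hws, hwa⟩ := h g hg hb hv
  have hwI : (fun l => Complex.I * ((w l).im : ℂ) : Fin n → ℂ) = w := by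
    funext l
    have h1 := hws l (Finset.mem_univ l)
    apply Complex.ext
    · simp [h1]
    · simp
  refine ⟨fun l => (w l).im, by rw [hwI]; exact hw, ?_⟩
  rw [hwI]
  intro v hv
  rw [mem_ball, dist_eq_norm] at hv
  have hsub : ball w 1 ⊆ ball (0 : Fin n → ℂ) 2 := by
    intro u hu
    rw [mem_ball, dist_eq_norm] at hu
    rw [mem_ball_zero_iff]
    calc ‖u‖ = ‖(u - w) + w‖ := by rw [sub_add_cancel]
      _ ≤ ‖u - w‖ + ‖w‖ := norm_add_le _ _
      _ < 2 := by linarith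
  have hmaps : Set.MapsTo g (ball w 1) (closedBall (g w) (2 * |C|)) := by
    intro u hu
    rw [mem_closedBall, dist_eq_norm]
    have h1 := (hb u (hsub hu)).trans (le_abs_self C)
    have h2 := (hb w (hsub (mem_ball_self one_pos))).trans (le_abs_self C)
    linarith [norm_sub_le (g u) (g w)]
  have hv1 : v ∈ ball w 1 := by
    rw [mem_ball, dist_eq_norm]
    exact hv.trans_le (min_le_left _ _)
  have key := Complex.dist_le_div_mul_dist_of_mapsTo_ball (hg.mono hsub) hmaps hv1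
  rw [dist_eq_norm, dist_eq_norm, div_one] at key
  have hv2 : ‖v - w‖ < a / (2 * L) := hv.trans_le (min_le_right _ _)
  have h3 : 2 * |C| * ‖v - w‖ ≤ a / 2 := by
    calc 2 * |C| * ‖v - w‖ ≤ L * (a / (2 * L)) := by
          apply mul_le_mul (by linarith) hv2.le (norm_nonneg _) hL0.le
      _ = a / 2 := by field_simp
  have h4 : ‖g w‖ ≤ ‖g v‖ + ‖g v - g w‖ := by
    calc ‖g w‖ = ‖g v - (g v - g w)‖ := by rw [sub_sub_cancel]
      _ ≤ ‖g v‖ + ‖g v - g w‖ := norm_sub_le _ _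
  linarith

/-- pigeonhole: a scale with doubling -/
theorem scale {M : ℕ → ℝ} {N : ℕ} {C A B : ℝ} (hC : 0 ≤ C) (hA : A ≤ M 0) (hB : M N ≤ B)
    (h : B < C ^ N * A) : ∃ i < N, M (i + 1) ≤ C * M i := by
  by_contra hcon
  push Not at hcon
  have h1 : ∀ k ≤ N, C ^ k * A ≤ M k := by
    intro k
    induction k with
    | zero => intro _; simpa using hA
    | succ k ih =>
      intro hk
      have h2 := ih (by omega)
      have h3 := hcon k (by omega)
      calc C ^ (k + 1) * A = C * (C ^ k * A) := by ring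
        _ ≤ C * M k := mul_le_mul_of_nonneg_left h2 hC
        _ ≤ M (k + 1) := h3.le
  have := h1 N le_rfl
  linarith

theorem doubl : Pool.Agent.H664.FH.S_doubl := by
  intro n D σ hσ
  -- constants
  set c : ℝ := 8 * |D| * Real.log 4 / σ + 1 with hc
  have hlog4 : 0 < Real.log 4 := Real.log_pos (by norm_num)
  have hc0 : 0 < c := by positivity
  obtain ⟨m, η, hm, hη, hη1, hcl⟩ := claim n (Real.exp c)
  -- large T
  have hT1 : ∀ᶠ T : ℝ in atTop, 4 * Real.log 4 / σ + 1 ≤ Real.log T :=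
    Real.tendsto_log_atTop.eventually (eventually_ge_atTop _)
  have hT2 : ∀ᶠ T : ℝ in atTop, 1 / (2 * η) ≤ T ^ (σ / 4) :=
    (tendsto_rpow_atTop (by positivity)).eventually (eventually_ge_atTop _)
  have hT3 : ∀ᶠ T : ℝ in atTop, 1 / m ≤ T := eventually_ge_atTop _
  have hT4 : ∀ᶠ T : ℝ in atTop, 1 < T := eventually_gt_atTop _
  obtain ⟨K, hK⟩ := eventually_atTop.1 (hT1.and (hT2.and (hT3.and hT4)))
  refine ⟨K, D + 1, σ / 4, by positivity, ?_⟩
  intro T hTK F hFd hFb hF1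
  obtain ⟨hT1, hT2, hT3, hT4⟩ := hK T hTK
  have hT0 : 0 < T := by linarith
  -- number of steps
  set N : ℕ := ⌊σ / 2 * (Real.log T / Real.log 4)⌋₊ with hN
  have hlT : 0 < Real.log T := Real.log_pos hT4
  have hq0 : 0 ≤ σ / 2 * (Real.log T / Real.log 4) := by positivity
  have hN1 : (N : ℝ) ≤ σ / 2 * (Real.log T / Real.log 4) := Nat.floor_le hq0
  have hN2 : σ / 2 * (Real.log T / Real.log 4) < N + 1 := Nat.lt_floor_add_one _
  have hN3 : σ / 4 * (Real.log T / Real.log 4) < N := by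
    have h1 : 1 < σ / 4 * (Real.log T / Real.log 4) := by
      have h2 : 4 * Real.log 4 / σ < Real.log T := by linarith
      rw [div_lt_iff₀ hσ] at h2
      rw [← mul_div_assoc, lt_div_iff₀ hlog4]
      nlinarith
    linarith
  set r : ℝ := T ^ (σ / 2) with hr
  have hr1 : 1 ≤ r := Real.one_le_rpow hT4.le (by positivity)
  have hr0 : 0 < r := by linarith
  have hrr : r * r = T ^ σ := by
    rw [hr, ← Real.rpow_add hT0]
    congr 1
    ring
  have h4N : (4 : ℝ) ^ N ≤ r := by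
    rw [hr, ← Real.rpow_natCast, Real.rpow_def_of_pos (by norm_num : (0 : ℝ) < 4),
      Real.rpow_def_of_pos hT0]
    apply Real.exp_le_exp.2
    calc Real.log 4 * N ≤ Real.log 4 * (σ / 2 * (Real.log T / Real.log 4)) :=
          mul_le_mul_of_nonneg_left hN1 hlog4.le
      _ = Real.log T * (σ / 2) := by field_simp
  -- the suprema
  set M : ℕ → ℝ := fun i => sSup ((fun u => ‖F u‖) '' ball (0 : Fin n → ℂ) (4 ^ i * r)) with hM
  have hsub : ∀ i ≤ N, ball (0 : Fin n → ℂ) (4 ^ i * r) ⊆ ball 0 (T ^ σ) := by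
    intro i hi
    apply ball_subset_ball
    rw [← hrr]
    apply mul_le_mul_of_nonneg_right _ hr0.le
    exact (pow_le_pow_right₀ (by norm_num) hi).trans h4N
  have hbdd : ∀ i ≤ N, BddAbove ((fun u => ‖F u‖) '' ball (0 : Fin n → ℂ) (4 ^ i * r)) := by
    intro i hi
    refine ⟨T ^ D, ?_⟩
    rintro _ ⟨u, hu, rfl⟩
    exact hFb u (hsub i hi hu)
  have hne : ∀ i, ((fun u => ‖F u‖) '' ball (0 : Fin n → ℂ) (4 ^ i * r)).Nonempty := by
    intro i
    exact ⟨_, 0, mem_ball_self (by positivity), rfl⟩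
  have hleM : ∀ i ≤ N, ∀ u ∈ ball (0 : Fin n → ℂ) (4 ^ i * r), ‖F u‖ ≤ M i := by
    intro i hi u hu
    exact le_csSup (hbdd i hi) ⟨u, hu, rfl⟩
  obtain ⟨u1, hu1, hu1'⟩ := hF1
  have hM0 : ∀ i ≤ N, T ^ (-D) ≤ M i := by
    intro i hi
    refine hu1'.trans (hleM i hi u1 ?_)
    refine ball_subset_ball ?_ hu1
    have : (1 : ℝ) ≤ 4 ^ i := one_le_pow₀ (by norm_num)
    nlinarith
  have hMN : M N ≤ T ^ D := by
    apply csSup_le (hne N)
    rintro _ ⟨u, hu, rfl⟩
    exact hFb u (hsub N le_rfl hu)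
  have hbig : T ^ D < Real.exp c ^ N * T ^ (-D) := by
    rw [← Real.exp_nat_mul, Real.rpow_def_of_pos hT0, Real.rpow_def_of_pos hT0, ← Real.exp_add]
    apply Real.exp_lt_exp.2
    have h1 : 2 * |D| * Real.log T < N * c := by
      have h2 : (N : ℝ) * c = N * (8 * |D| * Real.log 4 / σ) + N := by
        rw [hc]; ring
      have h3 : σ / 4 * (Real.log T / Real.log 4) * (8 * |D| * Real.log 4 / σ) ≤
          N * (8 * |D| * Real.log 4 / σ) :=
        mul_le_mul_of_nonneg_right hN3.le (by positivity)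
      have h4 : σ / 4 * (Real.log T / Real.log 4) * (8 * |D| * Real.log 4 / σ) =
          2 * |D| * Real.log T := by
        field_simp
        ring
      have h5 : 0 < (N : ℝ) := lt_of_le_of_lt (by positivity) hN3
      linarith
    have h6 : D * Real.log T ≤ |D| * Real.log T :=
      mul_le_mul_of_nonneg_right (le_abs_self D) hlT.le
    linarith
  obtain ⟨i, hiN, hdoub⟩ := scale (Real.exp_pos c).le (hM0 0 (Nat.zero_le _)) hMN hbig
  have hi1 : i ≤ N := hiN.le
  have hi2 : i + 1 ≤ N := hiN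
  set ρ : ℝ := 4 ^ i * r with hρ
  have hρr : r ≤ ρ := by
    have : (1 : ℝ) ≤ 4 ^ i := one_le_pow₀ (by norm_num)
    rw [hρ]
    nlinarith
  have hρ0 : 0 < ρ := by linarith
  have hρ4 : 4 ^ (i + 1) * r = 4 * ρ := by rw [hρ]; ring
  have hMi : 0 < M i := lt_of_lt_of_le (Real.rpow_pos_of_pos hT0 _) (hM0 i hi1)
  obtain ⟨_, ⟨u0, hu0, rfl⟩, hu0'⟩ := exists_lt_of_lt_csSup (hne i)
    (show M i / 2 < sSup ((fun u => ‖F u‖) '' ball (0 : Fin n → ℂ) (4 ^ i * r)) by
      show M i / 2 < M i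
      linarith)
  -- rescaling
  set g : (Fin n → ℂ) → ℂ := fun v => F (((2 * ρ : ℝ) : ℂ) • v) / ((M i : ℝ) : ℂ) with hg
  have hnorm : ∀ v : Fin n → ℂ, ‖((2 * ρ : ℝ) : ℂ) • v‖ = 2 * ρ * ‖v‖ := by
    intro v
    rw [norm_smul, Complex.norm_real, Real.norm_eq_abs, abs_of_pos (by positivity)]
  have hmap : ∀ v ∈ ball (0 : Fin n → ℂ) 2, ((2 * ρ : ℝ) : ℂ) • v ∈
      ball (0 : Fin n → ℂ) (4 ^ (i + 1) * r) := by
    intro v hv
    rw [mem_ball_zero_iff] at hv ⊢
    rw [hnorm, hρ4]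
    nlinarith
  have hgd : DifferentiableOn ℂ g (ball 0 2) := by
    have h1 : DifferentiableOn ℂ (fun v : Fin n → ℂ => F (((2 * ρ : ℝ) : ℂ) • v)) (ball 0 2) := by
      refine hFd.comp (t := ball 0 (T ^ σ)) ?_ (fun v hv => hsub (i + 1) hi2 (hmap v hv))
      exact (Differentiable.const_smul (differentiable_id (𝕜 := ℂ) (E := Fin n → ℂ))
        ((2 * ρ : ℝ) : ℂ)).differentiableOn
    show DifferentiableOn ℂ (fun v => F (((2 * ρ : ℝ) : ℂ) • v) / ((M i : ℝ) : ℂ)) (ball 0 2)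
    simp only [div_eq_mul_inv]
    exact h1.mul_const _
  have hgn : ∀ v, ‖g v‖ = ‖F (((2 * ρ : ℝ) : ℂ) • v)‖ / M i := by
    intro v
    show ‖F (((2 * ρ : ℝ) : ℂ) • v) / ((M i : ℝ) : ℂ)‖ = _
    rw [norm_div, Complex.norm_real, Real.norm_eq_abs, abs_of_pos hMi]
  have hgb : ∀ v ∈ ball (0 : Fin n → ℂ) 2, ‖g v‖ ≤ Real.exp c := by
    intro v hv
    rw [hgn, div_le_iff₀ hMi]
    exact (hleM (i + 1) hi2 _ (hmap v hv)).trans hdoub
  have hgv : ∃ v : Fin n → ℂ, ‖v‖ ≤ 1 ∧ 1 / 2 ≤ ‖g v‖ := by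
    refine ⟨((2 * ρ : ℝ) : ℂ)⁻¹ • u0, ?_, ?_⟩
    · rw [mem_ball_zero_iff] at hu0
      rw [norm_smul, norm_inv, Complex.norm_real, Real.norm_eq_abs, abs_of_pos (by positivity),
        inv_mul_le_iff₀ (by positivity)]
      linarith
    · rw [hgn, smul_smul, mul_inv_cancel₀ (by
        rw [Ne, Complex.ofReal_eq_zero]; positivity), one_smul, le_div_iff₀ hMi]
      have : M i / 2 < ‖F u0‖ := hu0'
      linarith
  obtain ⟨κ, hκ, hκb⟩ := hcl g hgd hgb hgv
  refine ⟨fun l => 2 * ρ * κ l, ?_⟩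
  have hcen : (fun l => Complex.I * ((2 * ρ * κ l : ℝ) : ℂ) : Fin n → ℂ) =
      ((2 * ρ : ℝ) : ℂ) • (fun l => Complex.I * (κ l : ℂ) : Fin n → ℂ) := by
    funext l
    simp only [Pi.smul_apply, smul_eq_mul, Complex.ofReal_mul]
    ring
  rw [hcen]
  have hrad : T ^ (σ / 4) ≤ 2 * ρ * η := by
    have h1 : T ^ (σ / 4) * T ^ (σ / 4) = r := by
      rw [hr, ← Real.rpow_add hT0]
      congr 1
      ring
    have h2 : 0 < T ^ (σ / 4) := Real.rpow_pos_of_pos hT0 _
    have h3 : 1 ≤ T ^ (σ / 4) * (2 * η) := by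
      rw [div_le_iff₀ (by positivity)] at hT2
      exact hT2
    calc T ^ (σ / 4) = T ^ (σ / 4) * 1 := by ring
      _ ≤ T ^ (σ / 4) * (T ^ (σ / 4) * (2 * η)) := mul_le_mul_of_nonneg_left h3 h2.le
      _ = 2 * r * η := by rw [← h1]; ring
      _ ≤ 2 * ρ * η := by
        apply mul_le_mul_of_nonneg_right _ hη.le
        linarith
  have hscale : ∀ u ∈ ball (((2 * ρ : ℝ) : ℂ) • (fun l => Complex.I * (κ l : ℂ) : Fin n → ℂ))
      (T ^ (σ / 4)), ∃ v ∈ ball (fun l => Complex.I * (κ l : ℂ) : Fin n → ℂ) η,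
        u = ((2 * ρ : ℝ) : ℂ) • v := by
    intro u hu
    have hne' : ((2 * ρ : ℝ) : ℂ) ≠ 0 := by
      rw [Ne, Complex.ofReal_eq_zero]
      positivity
    refine ⟨((2 * ρ : ℝ) : ℂ)⁻¹ • u, ?_, by rw [smul_smul, mul_inv_cancel₀ hne', one_smul]⟩
    rw [mem_ball, dist_eq_norm] at hu ⊢
    have h1 : ((2 * ρ : ℝ) : ℂ)⁻¹ • u - (fun l => Complex.I * (κ l : ℂ) : Fin n → ℂ) =
        ((2 * ρ : ℝ) : ℂ)⁻¹ • (u - ((2 * ρ : ℝ) : ℂ) •
          (fun l => Complex.I * (κ l : ℂ) : Fin n → ℂ)) := by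
      rw [smul_sub, smul_smul, inv_mul_cancel₀ hne', one_smul]
    rw [h1, norm_smul, norm_inv, Complex.norm_real, Real.norm_eq_abs,
      abs_of_pos (by positivity), inv_mul_lt_iff₀ (by positivity)]
    linarith
  have hball2 : ∀ v ∈ ball (fun l => Complex.I * (κ l : ℂ) : Fin n → ℂ) η,
      v ∈ ball (0 : Fin n → ℂ) 2 := by
    intro v hv
    rw [mem_ball, dist_eq_norm] at hv
    rw [mem_ball_zero_iff]
    calc ‖v‖ = ‖(v - fun l => Complex.I * (κ l : ℂ)) + fun l => Complex.I * (κ l : ℂ)‖ := by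
          rw [sub_add_cancel]
      _ ≤ ‖v - fun l => Complex.I * (κ l : ℂ)‖ + ‖fun l => Complex.I * (κ l : ℂ)‖ :=
          norm_add_le _ _
      _ < 2 := by linarith
  refine ⟨?_, ?_⟩
  · intro u hu
    obtain ⟨v, hv, rfl⟩ := hscale u hu
    exact hsub (i + 1) hi2 (hmap v (hball2 v hv))
  · intro u hu
    obtain ⟨v, hv, rfl⟩ := hscale u hu
    have h1 := hκb v hv
    rw [hgn, le_div_iff₀ hMi] at h1
    have h2 : T ^ (-(D + 1)) ≤ m * M i := by
      have h3 : T ^ (-(D + 1)) = T ^ (-D) * T⁻¹ := by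
        rw [show -(D + 1) = -D + (-1) by ring, Real.rpow_add hT0, Real.rpow_neg_one]
      have h4 : T⁻¹ ≤ m := by
        rw [div_le_iff₀ hm] at hT3
        rw [inv_le_iff_one_le_mul₀ hT0]
        linarith
      rw [h3, mul_comm m]
      exact mul_le_mul (hM0 i hi1) h4 (by positivity) hMi.le
    exact h2.trans h1

end Pool.Agent.H183.FH
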